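import Mathlib

set_option autoImplicit false

/-!
# A simplicial deletion that destroys 3-chordality

There is a `3`-chordal `3`-closure `Γ` on `8` vertices (31 faces with four elements, one with five)
and a simplicial face `E` of `Γ` such that `Γ⟨E⟩` is not `3`-chordal: `Γ⟨E⟩` is not the full
skeleton, and all its simplicial faces are facets.
-/

namespace Pool.Agent.Results.MP_eff1f1_co.DeletionFails

/-- The family `Γ` of subsets of `[n]` is closed under taking subsets. -/
def IsComplex {n : ℕ} (Γ : Set (Finset (Fin n))) : Prop :=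
  ∀ F ∈ Γ, ∀ G, G ⊆ F → G ∈ Γ

/-- The `d`-closure of `Γ`: all sets with at most `d` elements, and the sets all of whose
`(d + 1)`-element subsets lie in `Γ`. -/
def dClosure {n : ℕ} (d : ℕ) (Γ : Set (Finset (Fin n))) : Set (Finset (Fin n)) :=
  {F | F.card ≤ d ∨ ∀ S, S ⊆ F → S.card = d + 1 → S ∈ Γ}

/-- `F` is a facet of `Γ`: an inclusion-maximal face. -/
def IsFacet {n : ℕ} (Γ : Set (Finset (Fin n))) (F : Finset (Fin n)) : Prop :=
  F ∈ Γ ∧ ∀ G ∈ Γ, F ⊆ G → G = F

/-- `E` is a free face of `Γ`: it lies in exactly one facet. -/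
def IsFree {n : ℕ} (Γ : Set (Finset (Fin n))) (E : Finset (Fin n)) : Prop :=
  E ∈ Γ ∧ ∃! F, IsFacet Γ F ∧ E ⊆ F

/-- `E` is a simplicial face of `Γ`: a free face of dimension `d - 1`. -/
def IsSimplicial {n : ℕ} (d : ℕ) (Γ : Set (Finset (Fin n))) (E : Finset (Fin n)) : Prop :=
  IsFree Γ E ∧ E.card = d

/-- `Γ⟨E⟩`: remove from `Γ` all faces that strictly contain `E`. -/
def deletion {n : ℕ} (Γ : Set (Finset (Fin n))) (E : Finset (Fin n)) : Set (Finset (Fin n)) :=
  {F | F ∈ Γ ∧ ¬ E ⊂ F}

/-- The complex of all subsets of `[n]` with at most `d` elements. -/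
def skeleton (n d : ℕ) : Set (Finset (Fin n)) := {F | F.card ≤ d}

/-- `Γ` is `d`-chordal: `Γ` is the skeleton, or `Γ` is a `d`-closure with a simplicial face `E`
that is not a facet and such that `Γ⟨E⟩` is `d`-chordal. -/
inductive IsChordal {n : ℕ} (d : ℕ) : Set (Finset (Fin n)) → Prop
  | skeleton : IsChordal d (skeleton n d)
  | step (Γ : Set (Finset (Fin n))) (E : Finset (Fin n)) : dClosure d Γ = Γ →
      IsSimplicial d Γ E → ¬ IsFacet Γ E → IsChordal d (deletion Γ E) → IsChordal d Γ

section general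

variable {n : ℕ}

/-- The family of all sets all of whose `(d + 1)`-element subsets satisfy `h`. -/
def cl (d : ℕ) (h : Finset (Fin n) → Prop) : Set (Finset (Fin n)) :=
  {F | ∀ S, S ⊆ F → S.card = d + 1 → h S}

theorem isComplex_cl (d : ℕ) (h : Finset (Fin n) → Prop) : IsComplex (cl d h) :=
  fun _ hF _ hG S hS hc => hF S (hS.trans hG) hc

theorem dClosure_cl (d : ℕ) (h : Finset (Fin n) → Prop) : dClosure d (cl d h) = cl d h := by
  ext F
  constructor
  · rintro (h1 | h1) S hS hc
    · have := Finset.card_le_card hS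
      omega
    · exact h1 S hS hc S (Finset.Subset.refl S) hc
  · intro h1
    exact Or.inr fun S hS _ => isComplex_cl d h F h1 S hS

theorem deletion_cl (d : ℕ) (h : Finset (Fin n) → Prop) (E : Finset (Fin n)) (hE : E.card = d) :
    deletion (cl d h) E = cl d (fun S => h S ∧ ¬ E ⊆ S) := by
  ext F
  constructor
  · rintro ⟨h1, h2⟩ S hS hc
    refine ⟨h1 S hS hc, fun h3 => h2 ?_⟩
    refine Finset.ssubset_of_ssubset_of_subset
      (Finset.ssubset_iff_subset_ne.2 ⟨h3, fun h4 => ?_⟩) hS
    rw [← h4] at hc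
    omega
  · intro h1
    refine ⟨fun S hS hc => (h1 S hS hc).1, fun h2 => ?_⟩
    obtain ⟨x, hx, hxE⟩ := Finset.exists_of_ssubset h2
    exact (h1 (insert x E) (Finset.insert_subset hx h2.1)
      (by rw [Finset.card_insert_of_notMem hxE, hE])).2 (Finset.subset_insert x E)

theorem simplicial_of (d : ℕ) (h : Finset (Fin n) → Prop) (E F0 : Finset (Fin n))
    (hE : E.card = d) (hF0 : F0 ∈ cl d h) (hEF : E ⊆ F0) (hne : E ≠ F0)
    (hx : ∀ x, x ∉ E → h (insert x E) → x ∈ F0) :
    IsSimplicial d (cl d h) E ∧ ¬ IsFacet (cl d h) E := by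
  have key : ∀ G ∈ cl d h, E ⊆ G → G ⊆ F0 := by
    intro G hG hEG x hxG
    by_cases hxE : x ∈ E
    · exact hEF hxE
    · exact hx x hxE (hG (insert x E) (Finset.insert_subset hxG hEG)
        (by rw [Finset.card_insert_of_notMem hxE, hE]))
  refine ⟨⟨⟨isComplex_cl d h F0 hF0 E hEF, F0, ⟨⟨hF0, fun G hG hFG =>
    Finset.Subset.antisymm (key G hG (hEF.trans hFG)) hFG⟩, hEF⟩, ?_⟩, hE⟩, ?_⟩
  · rintro G ⟨hG, hEG⟩
    exact (hG.2 F0 hF0 (key G hG.1 hEG)).symm
  · intro hf
    exact hne (hf.2 F0 hF0 hEF).symm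

theorem exists_facet (Γ : Set (Finset (Fin n))) (F : Finset (Fin n)) (hF : F ∈ Γ) :
    ∃ G, IsFacet Γ G ∧ F ⊆ G := by
  obtain ⟨G, hFG, hG⟩ := (Set.toFinite Γ).exists_le_maximal hF
  exact ⟨G, ⟨hG.prop, fun G' hG' hle => Finset.Subset.antisymm (hG.2 hG' hle) hle⟩, hFG⟩

theorem of_simplicial (d : ℕ) (h : Finset (Fin n) → Prop) (E : Finset (Fin n))
    (hs : IsSimplicial d (cl d h) E) (hn : ¬ IsFacet (cl d h) E) :
    ∃ F0 ∈ cl d h, E ⊆ F0 ∧ E ≠ F0 ∧ ∀ x, x ∉ E → h (insert x E) → x ∈ F0 := by
  obtain ⟨⟨hE0, F0, ⟨hF0, hEF⟩, huniq⟩, hE⟩ := hs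
  refine ⟨F0, hF0.1, hEF, ?_, ?_⟩
  · intro he
    rw [he] at hn
    exact hn hF0
  · intro x hx hh
    have h1 : insert x E ∈ cl d h := by
      intro S hS hc
      have h2 : S = insert x E := Finset.eq_of_subset_of_card_le hS
        (by rw [Finset.card_insert_of_notMem hx, hE, hc])
      rwa [h2]
    obtain ⟨G, hG, hG2⟩ := exists_facet (cl d h) (insert x E) h1
    have h3 := huniq G ⟨hG, (Finset.subset_insert x E).trans hG2⟩
    rw [← h3]
    exact hG2 (Finset.mem_insert_self x E)

theorem chordal_cases {d : ℕ} {Γ : Set (Finset (Fin n))} (h : IsChordal d Γ) :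
    Γ = skeleton n d ∨ ∃ E, IsSimplicial d Γ E ∧ ¬ IsFacet Γ E := by
  cases h with
  | skeleton => exact Or.inl rfl
  | step _ E h1 h2 h3 h4 => exact Or.inr ⟨E, h2, h3⟩

end general

/-- The set of vertices encoded by the bits of `m`. -/
def dec (m : ℕ) : Finset (Fin 8) := Finset.univ.filter fun i => m.testBit i = true

/-- The number whose bits encode `S`. -/
def enc (S : Finset (Fin 8)) : ℕ := Nat.ofBits fun i : Fin 8 => decide (i ∈ S)

theorem mem_dec {m : ℕ} {i : Fin 8} : i ∈ dec m ↔ m.testBit i = true := by simp [dec]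

theorem testBit_enc (S : Finset (Fin 8)) (i : Fin 8) : (enc S).testBit i = decide (i ∈ S) := by
  unfold enc
  rw [Nat.testBit_ofBits_lt _ _ i.2]

theorem enc_lt (S : Finset (Fin 8)) : enc S < 256 := Nat.ofBits_lt_two_pow _

theorem dec_enc (S : Finset (Fin 8)) : dec (enc S) = S := by
  ext i
  rw [mem_dec, testBit_enc, decide_eq_true_iff]

theorem eq_of_testBit {a b : ℕ} (ha : a < 256) (hb : b < 256)
    (h : ∀ i : Fin 8, a.testBit i = b.testBit i) : a = b := by
  apply Nat.eq_of_testBit_eq
  intro i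
  by_cases hi : i < 8
  · exact h ⟨i, hi⟩
  · have h8 : 2 ^ 8 ≤ 2 ^ i := Nat.pow_le_pow_right (by norm_num) (not_lt.1 hi)
    rw [Nat.testBit_lt_two_pow (lt_of_lt_of_le ha h8), Nat.testBit_lt_two_pow
      (lt_of_lt_of_le hb h8)]

theorem enc_dec {m : ℕ} (hm : m < 256) : enc (dec m) = m := by
  refine eq_of_testBit (enc_lt _) hm fun i => ?_
  rw [testBit_enc, Bool.eq_iff_iff, decide_eq_true_iff, mem_dec]

theorem dec_subset {a b : ℕ} (ha : a < 256) : dec a ⊆ dec b ↔ a &&& b = a := by
  constructor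
  · intro h
    refine eq_of_testBit (lt_of_le_of_lt Nat.and_le_left ha) ha fun i => ?_
    rw [Nat.testBit_and]
    cases hi : a.testBit i
    · rfl
    · rw [mem_dec.1 (h (mem_dec.2 hi))]
      rfl
  · intro h i hi
    rw [mem_dec] at hi ⊢
    rw [← h, Nat.testBit_and, Bool.and_eq_true] at hi
    exact hi.2

/-- The number of the first eight bits of `m` that are set. -/
def pc (m : ℕ) : ℕ :=
  (m.testBit 0).toNat + (m.testBit 1).toNat + (m.testBit 2).toNat + (m.testBit 3).toNat +
  (m.testBit 4).toNat + (m.testBit 5).toNat + (m.testBit 6).toNat + (m.testBit 7).toNat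

theorem ite_eq_toNat (b : Bool) : (if b = true then 1 else 0) = b.toNat := by cases b <;> rfl

theorem card_dec (m : ℕ) : (dec m).card = pc m := by
  unfold dec
  rw [Finset.card_filter, Fin.sum_univ_eight]
  simp only [ite_eq_toNat]
  rfl

theorem enc_insert {e : ℕ} (he : e < 256) (x : Fin 8) :
    enc (insert x (dec e)) = e ||| 2 ^ (x : ℕ) := by
  have h2 : 2 ^ (x : ℕ) < 2 ^ 8 := Nat.pow_lt_pow_right (by norm_num) x.2
  refine eq_of_testBit (enc_lt _) (Nat.or_lt_two_pow he h2) fun i => ?_
  rw [testBit_enc, Nat.testBit_or, Nat.testBit_two_pow, Bool.eq_iff_iff, decide_eq_true_iff,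
    Finset.mem_insert, mem_dec, Bool.or_eq_true, decide_eq_true_iff, Fin.ext_iff]
  constructor
  · rintro (h | h)
    · exact Or.inr h.symm
    · exact Or.inl h
  · rintro (h | h)
    · exact Or.inr h
    · exact Or.inl h.symm

/-- The check that `e` encodes a simplicial face with facet `U`. -/
def stepOK (H : List ℕ) (e U : ℕ) : Bool :=
  decide (e < 256) && decide (U < 256) && (pc e == 3) && (e &&& U == e) && !(U &&& e == U) &&
  (List.range 256).all (fun m => !(pc m == 4) || !(m &&& U == m) || decide (m ∈ H)) &&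
  (List.range 8).all (fun x => e.testBit x || !(decide (e ||| 2 ^ x ∈ H)) || U.testBit x)

/-- Delete from the list all sets that contain `e`. -/
def del (H : List ℕ) (e : ℕ) : List ℕ := H.filter fun m => !(e &&& m == e)

/-- The check of a simplicial order. -/
def run : List ℕ → List (ℕ × ℕ) → Bool
  | H, [] => H.isEmpty
  | H, p :: l => stepOK H p.1 p.2 && run (del H p.1) l

/-- The complex of the list `H` of encoded four-element sets. -/
def cx (H : List ℕ) : Set (Finset (Fin 8)) := cl 3 (fun S => enc S ∈ H)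

theorem stepOK_spec {H : List ℕ} {e U : ℕ} (h : stepOK H e U = true) :
    e < 256 ∧ (dec e).card = 3 ∧ IsSimplicial 3 (cx H) (dec e) ∧ ¬ IsFacet (cx H) (dec e) := by
  simp only [stepOK, Bool.and_eq_true, decide_eq_true_iff, beq_iff_eq, Bool.not_eq_true',
    beq_eq_false_iff_ne, List.all_eq_true, List.mem_range, Bool.or_eq_true] at h
  obtain ⟨⟨⟨⟨⟨⟨he, hU⟩, hp⟩, hs⟩, hne⟩, h4⟩, h8⟩ := h
  have hc : (dec e).card = 3 := by rw [card_dec, hp]
  refine ⟨he, hc, simplicial_of 3 _ (dec e) (dec U) hc ?_ ((dec_subset he).2 hs) ?_ ?_⟩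
  · intro S hS hSc
    rw [← dec_enc S] at hS hSc
    rw [card_dec] at hSc
    rcases h4 (enc S) (enc_lt S) with (h5 | h5) | h5
    · exact absurd hSc h5
    · exact absurd ((dec_subset (enc_lt S)).1 hS) h5
    · exact h5
  · intro heU
    apply hne
    rw [← dec_subset hU, heU]
  · intro x hx hh
    rw [mem_dec] at hx ⊢
    rw [enc_insert he] at hh
    rcases h8 x x.2 with (h5 | h5) | h5
    · exact absurd h5 hx
    · exact absurd hh (of_decide_eq_false h5)
    · exact h5

theorem deletion_cx {H : List ℕ} {e : ℕ} (he : e < 256) (hc : (dec e).card = 3) :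
    deletion (cx H) (dec e) = cx (del H e) := by
  unfold cx
  rw [deletion_cl 3 _ _ hc]
  congr 1
  funext S
  rw [del, List.mem_filter, Bool.not_eq_true', beq_eq_false_iff_ne, ne_eq, ← dec_subset he,
    dec_enc]

theorem chordal_of_run : ∀ (l : List (ℕ × ℕ)) (H : List ℕ), run H l = true →
    IsChordal 3 (cx H)
  | [], H, h => by
    have h1 : H = [] := List.isEmpty_iff.1 h
    have h2 : cx H = skeleton 8 3 := by
      ext F
      constructor
      · intro hF
        by_contra h3
        have h4 : 4 ≤ F.card := by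
          have : ¬ F.card ≤ 3 := h3
          omega
        obtain ⟨S, hS, hc⟩ := Finset.exists_subset_card_eq h4
        have h5 := hF S hS hc
        rw [h1] at h5
        exact absurd h5 List.not_mem_nil
      · intro hF S hS hc
        have h3 : F.card ≤ 3 := hF
        have h4 := Finset.card_le_card hS
        omega
    rw [h2]
    exact IsChordal.skeleton
  | p :: l, H, h => by
    rw [run, Bool.and_eq_true] at h
    obtain ⟨he, hc, hs, hf⟩ := stepOK_spec h.1
    refine IsChordal.step _ (dec p.1) (dClosure_cl 3 _) hs hf ?_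
    rw [deletion_cx he hc]
    exact chordal_of_run l _ h.2

/-- The check that no face encoded by a number is simplicial unless it is a facet. -/
def stuck (H : List ℕ) : Bool :=
  (List.range 256).all fun e => !(pc e == 3) ||
    (List.range 8).all (fun x => e.testBit x || !(decide (e ||| 2 ^ x ∈ H))) ||
    (List.range 256).any fun m => (pc m == 4) && !(decide (m ∈ H)) &&
      (List.range 8).all (fun x => !(m.testBit x) || e.testBit x || decide (e ||| 2 ^ x ∈ H))

theorem stuck_spec {H : List ℕ} (h : stuck H = true) (E : Finset (Fin 8)) :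
    ¬ (IsSimplicial 3 (cx H) E ∧ ¬ IsFacet (cx H) E) := by
  rintro ⟨hs, hf⟩
  have hE : E.card = 3 := hs.2
  obtain ⟨F0, hF0, hEF, hne, hx⟩ := of_simplicial 3 _ E hs hf
  simp only [stuck, Bool.and_eq_true, decide_eq_true_iff, beq_iff_eq, Bool.not_eq_true',
    beq_eq_false_iff_ne, List.all_eq_true, List.any_eq_true, List.mem_range, Bool.or_eq_true,
    decide_eq_false_iff_not] at h
  have hE3 : pc (enc E) = 3 := by rw [← card_dec, dec_enc, hE]
  have hins : ∀ x : Fin 8, enc (insert x E) = enc E ||| 2 ^ (x : ℕ) := by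
    intro x
    rw [← enc_insert (enc_lt E), dec_enc]
  rcases h (enc E) (enc_lt E) with (h1 | h1) | ⟨m, hm, ⟨hm4, hmH⟩, hm8⟩
  · exact h1 hE3
  · obtain ⟨x, hxF, hxE⟩ := Finset.exists_of_ssubset
      (Finset.ssubset_iff_subset_ne.2 ⟨hEF, hne⟩)
    have h2 : enc (insert x E) ∈ H := hF0 (insert x E) (Finset.insert_subset hxF hEF)
      (by rw [Finset.card_insert_of_notMem hxE, hE])
    rw [hins] at h2
    rcases h1 x x.2 with h3 | h3
    · rw [testBit_enc, decide_eq_true_iff] at h3
      exact hxE h3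
    · exact h3 h2
  · apply hmH
    have h2 : enc (dec m) ∈ H := by
      refine hF0 (dec m) ?_ (by rw [card_dec, hm4])
      intro x hxm
      rw [mem_dec] at hxm
      rcases hm8 x x.2 with (h3 | h3) | h3
      · rw [hxm] at h3
        exact absurd h3 (by decide)
      · rw [testBit_enc, decide_eq_true_iff] at h3
        exact hEF h3
      · by_cases hxE : x ∈ E
        · exact hEF hxE
        · exact hx x hxE (by rw [hins]; exact h3)
    rwa [enc_dec hm] at h2

/-- The four-element faces of `Γ`, encoded. -/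
def H0 : List ℕ := [27, 29, 43, 46, 54, 57, 71, 78, 83, 85, 92, 102, 106, 108, 113, 114, 135, 139,
  141, 150, 154, 163, 172, 178, 180, 184, 195, 210, 216, 225, 232]

/-- A simplicial order of `Γ`, with the facets. -/
def order0 : List (ℕ × ℕ) := [(74, 110), (14, 46), (42, 43), (41, 57), (35, 163), (56, 184),
  (161, 225), (162, 178), (176, 180), (224, 232), (52, 54), (97, 113), (168, 172), (193, 195),
  (148, 150), (104, 108), (38, 102), (200, 216), (194, 210), (146, 154), (112, 114), (134, 135),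
  (138, 139), (7, 71), (11, 27), (19, 83), (69, 85), (84, 92), (140, 141), (21, 29)]

theorem run0 : run H0 order0 = true := by decide +kernel

theorem ok0 : stepOK H0 100 110 = true := by decide +kernel

theorem stuck0 : stuck (del H0 100) = true := by decide +kernel

theorem mem0 : (27 ∈ del H0 100) := by decide +kernel

/-- The conjecture fails for `d = 3` and `n = 8`: some `3`-chordal `3`-closure `Γ` on eight
vertices has a simplicial face `E` such that `Γ⟨E⟩` is not `3`-chordal. -/
theorem result : ∃ (Γ : Set (Finset (Fin 8))) (E : Finset (Fin 8)),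
    IsComplex Γ ∧ dClosure 3 Γ = Γ ∧ IsChordal 3 Γ ∧ IsSimplicial 3 Γ E ∧
      ¬ IsChordal 3 (deletion Γ E) := by
  obtain ⟨he, hc, hs, hf⟩ := stepOK_spec ok0
  refine ⟨cx H0, dec 100, isComplex_cl 3 _, dClosure_cl 3 _, chordal_of_run _ _ run0, hs, ?_⟩
  rw [deletion_cx he hc]
  intro h
  rcases chordal_cases h with h1 | ⟨E, hE1, hE2⟩
  · have h2 : dec 27 ∈ cx (del H0 100) := by
      intro S hS hSc
      have h3 : S = dec 27 := Finset.eq_of_subset_of_card_le hS (by
        rw [card_dec, hSc]
        decide +kernel)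
      rw [h3, enc_dec (by norm_num)]
      exact mem0
    rw [h1] at h2
    have h3 : (dec 27).card ≤ 3 := h2
    rw [card_dec] at h3
    revert h3
    decide +kernel
  · exact stuck_spec stuck0 E ⟨hE1, hE2⟩

end Pool.Agent.Results.MP_eff1f1_co.DeletionFails
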